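import Mathlib

set_option autoImplicit false
set_option maxHeartbeats 400000

open Filter Topology
open scoped InnerProductSpace ComplexOrder BoundedContinuousFunction

namespace Pool.Agent.Results.MP_f651fd_an.NoCompact

/-- `L` is a Banach limit on the space of bounded complex sequences. -/
def IsBanachLimit (L : (ℕ →ᵇ ℂ) →ₗ[ℂ] ℂ) : Prop :=
  (∀ f : ℕ →ᵇ ℂ, (∀ n, 0 ≤ f n) → 0 ≤ L f) ∧
  (∀ f g : ℕ →ᵇ ℂ, (∀ n, g n = f (n + 1)) → L g = L f) ∧ L 1 = 1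

/-- `A` is the `L`-asymptotic limit of `T`. -/
def IsAsymp {H : Type} [NormedAddCommGroup H] [InnerProductSpace ℂ H] (L : (ℕ →ᵇ ℂ) →ₗ[ℂ] ℂ)
    (T A : H → H) : Prop :=
  ∀ (x y : H) (f : ℕ →ᵇ ℂ), (∀ n, f n = ⟪T^[n] y, T^[n] x⟫_ℂ) → ⟪y, A x⟫_ℂ = L f

theorem result (H : Type) [NormedAddCommGroup H] [InnerProductSpace ℂ H] [CompleteSpace H]
    (hH : ¬ FiniteDimensional ℂ H) (L : (ℕ →ᵇ ℂ) →ₗ[ℂ] ℂ) (hL : IsBanachLimit L)
    (T A : H →L[ℂ] H) (hT : ∃ M : ℝ, ∀ n : ℕ, ‖T ^ n‖ ≤ M) (hA : IsAsymp L T A) :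
    ¬ (Function.Injective A ∧ IsCompactOperator A) := by
  rintro ⟨hi, hc⟩
  obtain ⟨M, hM⟩ := hT
  have M0 : 0 ≤ M := (norm_nonneg _).trans (hM 0)
  have b : ∀ n x, ‖(T ^ n) x‖ ≤ M * ‖x‖ := fun n x => (T ^ n).le_of_opNorm_le (hM n) x
  let F : H → H → ℕ →ᵇ ℂ := fun x y => BoundedContinuousFunction.ofNormedAddCommGroupDiscrete
    (fun n => ⟪(T ^ n) y, (T ^ n) x⟫_ℂ) (M * ‖y‖ * (M * ‖x‖)) fun n =>
      (norm_inner_le_norm _ _).trans (mul_le_mul (b n y) (b n x) (norm_nonneg _) (by positivity))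
  have e : ∀ x y, ⟪y, A x⟫_ℂ = L (F x y) := fun x y => hA x y _ fun n => by
    rw [← ContinuousLinearMap.coe_pow']; rfl
  have low : ∀ (x : H) (c : ℝ), (∀ n, c ≤ ‖(T ^ n) x‖ ^ 2) → (c : ℂ) ≤ ⟪x, A x⟫_ℂ := fun x c h => by
    have := hL.1 (F x x - (c : ℂ) • 1) fun n => by
      change 0 ≤ ⟪(T ^ n) x, (T ^ n) x⟫_ℂ - (c : ℂ) * 1
      rw [inner_self_eq_norm_sq_to_K, mul_one, sub_nonneg]
      have := Complex.real_le_real.2 (h n)
      rwa [Complex.ofReal_pow] at this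
    rwa [map_sub, map_smul, hL.2.2, smul_eq_mul, mul_one, sub_nonneg, ← e] at this
  have pos : A.IsPositive := (ContinuousLinearMap.isPositive_iff_complex A).2 fun x => by
    have := low x 0 fun n => by positivity
    rw [← inner_conj_symm]
    obtain ⟨h1, h2⟩ := Complex.nonneg_iff.1 this
    generalize ⟪x, A x⟫_ℂ = u at h1 h2
    exact ⟨Complex.ext (by simp) (by simp [← h2]), by simpa using h1⟩
  have sy : ∀ x y, ⟪A x, y⟫_ℂ = ⟪x, A y⟫_ℂ := pos.isSymmetric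
  have inv : ∀ n x, ⟪(T ^ n) x, A ((T ^ n) x)⟫_ℂ = ⟪x, A x⟫_ℂ := fun n x => by
    induction n with
    | zero => rfl
    | succ n ih =>
      rw [← ih, e, e]
      refine hL.2.1 _ _ fun k => ?_
      change ⟪(T ^ k) _, (T ^ k) _⟫_ℂ = ⟪(T ^ (k + 1)) _, (T ^ (k + 1)) _⟫_ℂ
      rw [pow_succ', pow_succ]; rfl
  let c : PreInnerProductSpace.Core ℂ H :=
    { inner := fun x y => ⟪x, A y⟫_ℂ
      conj_inner_symm := fun x y => by
        rw [inner_conj_symm]; exact pos.isSymmetric x y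
      re_inner_nonneg := fun x => pos.re_inner_nonneg_right x
      add_left := fun x y z => inner_add_left _ _ _
      smul_left := fun x y r => inner_smul_left _ _ _ }
  have cs : ∀ x y, ‖⟪x, A y⟫_ℂ‖ * ‖⟪y, A x⟫_ℂ‖ ≤ ‖⟪x, A x⟫_ℂ‖ * ‖⟪y, A y⟫_ℂ‖ := fun x y =>
    (InnerProductSpace.Core.inner_mul_inner_self_le (c := c) x y).trans
      (mul_le_mul (RCLike.re_le_norm _) (RCLike.re_le_norm _) (pos.re_inner_nonneg_right y)
        (norm_nonneg _))
  have key : ∀ k x w, ‖⟪x, A w⟫_ℂ‖ ≤ M * ‖(T ^ k) x‖ * ‖A w‖ := fun k x w => by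
    obtain ⟨K, hK, h1⟩ := hc.image_closedBall_subset_compact (M * ‖x‖)
    obtain ⟨z, -, φ, hφ, h2⟩ := hK.tendsto_subseq (x := fun n => A ((T ^ n) x)) fun n =>
      h1 ⟨_, mem_closedBall_zero_iff.2 (b n x), rfl⟩
    have h3 := ((h2.sub (h2.comp (tendsto_add_atTop_nat k))).norm.const_mul
      (‖⟪w, A w⟫_ℂ‖ * (2 * (M * ‖x‖)))).sqrt.const_add (M * ‖(T ^ k) x‖ * ‖A w‖)
    simp only [sub_self, norm_zero, mul_zero, Real.sqrt_zero, add_zero] at h3
    refine ge_of_tendsto' h3 fun n => ?_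
    obtain ⟨j, hj⟩ : ∃ j, φ (n + k) = φ n + (j + k) :=
      ⟨φ (n + k) - φ n - k, by have := hφ.add_le_nat k n; rw [add_comm k n] at this; omega⟩
    have a1 : ‖⟪(T ^ (j + k)) x, A w⟫_ℂ‖ ≤ M * ‖(T ^ k) x‖ * ‖A w‖ :=
      (norm_inner_le_norm _ _).trans (by rw [pow_add]; gcongr; exact b j _)
    have a2 : ‖⟪x - (T ^ (j + k)) x, A w⟫_ℂ‖ ≤ √(‖⟪w, A w⟫_ℂ‖ * (2 * (M * ‖x‖)) *
        ‖A ((T ^ φ n) x) - A ((T ^ φ (n + k)) x)‖) := by
      refine Real.le_sqrt_of_sq_le ?_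
      have a3 := cs w (x - (T ^ (j + k)) x)
      rw [← sy w, norm_inner_symm, ← inv (φ n) (x - _)] at a3
      rw [sq, mul_assoc]
      refine a3.trans (mul_le_mul_of_nonneg_left ((norm_inner_le_norm _ _).trans ?_) (norm_nonneg _))
      rw [map_sub, ← ContinuousLinearMap.mul_apply, ← pow_add, ← hj, map_sub]
      gcongr
      linarith [norm_sub_le ((T ^ φ n) x) ((T ^ φ (n + k)) x), b (φ n) x, b (φ (n + k)) x]
    rw [inner_sub_left] at a2
    simp only [Function.comp_apply]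
    linarith [norm_sub_norm_le ⟪x, A w⟫_ℂ ⟪(T ^ (j + k)) x, A w⟫_ℂ]
  have dn : DenseRange A := by
    change Dense ((LinearMap.range (A : H →ₗ[ℂ] H) : Submodule ℂ H) : Set H)
    rw [Submodule.dense_iff_topologicalClosure_eq_top, Submodule.topologicalClosure_eq_top_iff,
      Submodule.eq_bot_iff]
    intro x hx
    refine hi ?_
    rw [map_zero, ← inner_self_eq_zero (𝕜 := ℂ), sy x, ← inner_conj_symm,
      show ⟪A (A x), x⟫_ℂ = 0 from hx _ ⟨A x, rfl⟩, map_zero]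
  have lb : ∀ k x, ‖x‖ ≤ M * ‖(T ^ k) x‖ := fun k x => by
    have := dn.induction_on (p := fun u => ‖⟪x, u⟫_ℂ‖ ≤ M * ‖(T ^ k) x‖ * ‖u‖) x
      (isClosed_le (by fun_prop) (by fun_prop)) (key k x)
    rw [inner_self_eq_norm_sq_to_K, norm_pow, norm_algebraMap', norm_norm, sq] at this
    rcases (norm_nonneg x).eq_or_lt with h | h
    · rw [← h]; positivity
    · exact le_of_mul_le_mul_right this h
  have al : ∀ x, ‖x‖ ≤ (M + 1) ^ 2 * ‖A x‖ := fun x => by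
    have h1 := (Complex.le_def.1 (low x ((‖x‖ / (M + 1)) ^ 2) fun n => by
      gcongr
      rw [div_le_iff₀ (by positivity)]
      nlinarith [lb n x, norm_nonneg ((T ^ n) x)])).1
    have h2 := h1.trans ((Complex.re_le_norm _).trans (norm_inner_le_norm _ _))
    rw [Complex.ofReal_re, div_pow, div_le_iff₀ (by positivity)] at h2
    rcases (norm_nonneg x).eq_or_lt with h | h
    · rw [← h]; positivity
    · exact le_of_mul_le_mul_right (by nlinarith) h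
  obtain ⟨K, hK, h1⟩ := hc.image_closedBall_subset_compact 1
  have ce := (A.antilipschitz_of_bound (K := ⟨(M + 1) ^ 2, by positivity⟩) al).isClosedEmbedding
    A.uniformContinuous
  exact hH (FiniteDimensional.of_isCompact_closedBall₀ ℂ one_pos
    ((ce.isCompact_preimage hK).of_isClosed_subset Metric.isClosed_closedBall
      (Set.image_subset_iff.1 h1)))

end Pool.Agent.Results.MP_f651fd_an.NoCompact
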